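import Mathlib

/-!
# Extremal (2,3)-graphs with two adjacent vertices of degree 2

For `g = 4, 6, 7` there is a graph that is extremal for `g` in the class `D23` and in which two
vertices of degree 2 are adjacent.
-/

namespace Pool.Agent.Results.MP_6c91b3_co.AdjacentTwos

open SimpleGraph

/-- The degree of a vertex. -/
noncomputable def deg {V : Type*} (G : SimpleGraph V) (v : V) : ℕ := (G.neighborSet v).ncard

/-- The class `D23`: exactly half of the vertices have degree 2, exactly half have degree 3. -/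
def IsD23 {V : Type*} [Fintype V] (G : SimpleGraph V) : Prop :=
  2 * {v | deg G v = 2}.ncard = Fintype.card V ∧ 2 * {v | deg G v = 3}.ncard = Fintype.card V

/-- `G` is extremal for `g`: it is in `D23`, has girth `g`, and no graph in `D23` of girth `g` has
fewer vertices. -/
def IsExtremal (g : ℕ) {n : ℕ} (G : SimpleGraph (Fin n)) : Prop :=
  IsD23 G ∧ G.girth = g ∧ ∀ (m : ℕ) (H : SimpleGraph (Fin m)), IsD23 H → H.girth = g → n ≤ m

/-! ## No short closed walks in graphs of large girth -/

section girth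

variable {V : Type*} {G : SimpleGraph V}

theorem no3 (hg : 4 ≤ G.egirth) {a b c : V} (h1 : G.Adj a b) (h2 : G.Adj b c) (h3 : G.Adj c a) :
    False := by
  have hc : (Walk.cons h1 (Walk.cons h2 (Walk.cons h3 Walk.nil))).IsCycle := by
    have := h1.ne; have := h2.ne; have := h3.ne
    have := h1.ne'; have := h2.ne'; have := h3.ne'
    rw [Walk.isCycle_def]
    refine ⟨?_, by simp, ?_⟩
    · rw [Walk.isTrail_def]
      simp_all
    · simp_all
  have := (hg.trans (egirth_le_length hc))
  simp at this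
  norm_cast at this

theorem no4 (hg : 5 ≤ G.egirth) {a b c d : V} (h1 : G.Adj a b) (h2 : G.Adj b c) (h3 : G.Adj c d)
    (h4 : G.Adj d a) (hac : a ≠ c) (hbd : b ≠ d) : False := by
  have hc : (Walk.cons h1 (Walk.cons h2 (Walk.cons h3 (Walk.cons h4 Walk.nil)))).IsCycle := by
    have := h1.ne; have := h2.ne; have := h3.ne; have := h4.ne
    have := h1.ne'; have := h2.ne'; have := h3.ne'; have := h4.ne'
    have := hac.symm; have := hbd.symm
    rw [Walk.isCycle_def]
    refine ⟨?_, by simp, ?_⟩
    · rw [Walk.isTrail_def]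
      simp_all
    · simp_all
  have := (hg.trans (egirth_le_length hc))
  simp at this
  norm_cast at this

theorem no5 (hg : 6 ≤ G.egirth) {a b c d e : V} (h1 : G.Adj a b) (h2 : G.Adj b c) (h3 : G.Adj c d)
    (h4 : G.Adj d e) (h5 : G.Adj e a) : False := by
  have hg4 : 4 ≤ G.egirth := le_trans (by norm_num) hg
  have hac : a ≠ c := by rintro rfl; exact no3 hg4 h3 h4 h5
  have hbd : b ≠ d := by rintro rfl; exact no3 hg4 h4 h5 h1
  have hce : c ≠ e := by rintro rfl; exact no3 hg4 h5 h1 h2
  have hda : d ≠ a := by rintro rfl; exact no3 hg4 h1 h2 h3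
  have heb : e ≠ b := by rintro rfl; exact no3 hg4 h2 h3 h4
  have hc : (Walk.cons h1 (Walk.cons h2 (Walk.cons h3 (Walk.cons h4
      (Walk.cons h5 Walk.nil))))).IsCycle := by
    have := h1.ne; have := h2.ne; have := h3.ne; have := h4.ne; have := h5.ne
    have := h1.ne'; have := h2.ne'; have := h3.ne'; have := h4.ne'; have := h5.ne'
    have := hac.symm; have := hbd.symm; have := hce.symm; have := hda.symm; have := heb.symm
    rw [Walk.isCycle_def]
    refine ⟨?_, by simp, ?_⟩
    · rw [Walk.isTrail_def]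
      simp_all
    · simp_all
  have := (hg.trans (egirth_le_length hc))
  simp at this
  norm_cast at this

theorem no6 (hg : 7 ≤ G.egirth) {a b c d e f : V} (h1 : G.Adj a b) (h2 : G.Adj b c)
    (h3 : G.Adj c d) (h4 : G.Adj d e) (h5 : G.Adj e f) (h6 : G.Adj f a) (hac : a ≠ c) (hbd : b ≠ d)
    (hce : c ≠ e) (hdf : d ≠ f) (hea : e ≠ a) (hfb : f ≠ b) : False := by
  have hg4 : 4 ≤ G.egirth := le_trans (by norm_num) hg
  have had : a ≠ d := by rintro rfl; exact no3 hg4 h1 h2 h3
  have hbe : b ≠ e := by rintro rfl; exact no3 hg4 h2 h3 h4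
  have hcf : c ≠ f := by rintro rfl; exact no3 hg4 h3 h4 h5
  have hc : (Walk.cons h1 (Walk.cons h2 (Walk.cons h3 (Walk.cons h4
      (Walk.cons h5 (Walk.cons h6 Walk.nil)))))).IsCycle := by
    have := h1.ne; have := h2.ne; have := h3.ne; have := h4.ne; have := h5.ne; have := h6.ne
    have := h1.ne'; have := h2.ne'; have := h3.ne'; have := h4.ne'; have := h5.ne'
    have := h6.ne'
    have := hac.symm; have := hbd.symm; have := hce.symm; have := hdf.symm; have := hea.symm
    have := hfb.symm; have := had.symm; have := hbe.symm; have := hcf.symm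
    rw [Walk.isCycle_def]
    refine ⟨?_, by simp, ?_⟩
    · rw [Walk.isTrail_def]
      simp_all
    · simp_all
  have := (hg.trans (egirth_le_length hc))
  simp at this
  norm_cast at this

end girth

/-! ## Counting in `D23` -/

section counting

open Classical in
/-- neighbours as a finset -/
noncomputable def nb {V : Type*} [Fintype V] (G : SimpleGraph V) (v : V) : Finset V :=
  Finset.univ.filter fun w => G.Adj v w

variable {V : Type*} [Fintype V] {G : SimpleGraph V}

theorem mem_nb {v w : V} : w ∈ nb G v ↔ G.Adj v w := by simp [nb]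

theorem deg_eq (v : V) : deg G v = (nb G v).card := by
  unfold deg
  rw [← Set.ncard_coe_finset]
  congr 1
  ext w
  simp [mem_nb]

open Classical in
/-- vertices of degree `i` -/
noncomputable def dset (G : SimpleGraph V) (i : ℕ) : Finset V :=
  Finset.univ.filter fun v => (nb G v).card = i

theorem mem_dset {i : ℕ} {v : V} : v ∈ dset G i ↔ (nb G v).card = i := by simp [dset]

theorem ncard_dset (i : ℕ) : {v | deg G v = i}.ncard = (dset G i).card := by
  rw [← Set.ncard_coe_finset]
  congr 1
  ext v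
  simp [mem_dset, deg_eq]

theorem D23_cards (h : IsD23 G) : 2 * (dset G 2).card = Fintype.card V ∧
    2 * (dset G 3).card = Fintype.card V := by
  rw [← ncard_dset, ← ncard_dset]
  exact h

theorem D23_cases (h : IsD23 G) (v : V) : (nb G v).card = 2 ∨ (nb G v).card = 3 := by
  classical
  obtain ⟨h2, h3⟩ := D23_cards h
  have hd : Disjoint (dset G 2) (dset G 3) := by
    rw [Finset.disjoint_left]
    intro x hx hx'
    rw [mem_dset] at hx hx'
    omega
  have hu : dset G 2 ∪ dset G 3 = Finset.univ := by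
    rw [← Finset.card_eq_iff_eq_univ, Finset.card_union_of_disjoint hd]
    omega
  have : v ∈ dset G 2 ∪ dset G 3 := by rw [hu]; exact Finset.mem_univ v
  rw [Finset.mem_union, mem_dset, mem_dset] at this
  exact this

theorem D23_four_dvd (h : IsD23 G) : 4 ∣ Fintype.card V := by
  classical
  obtain ⟨h2, h3⟩ := D23_cards h
  have hs := G.sum_degrees_eq_twice_card_edges
  have hdeg : ∀ v, G.degree v = (nb G v).card := by
    intro v
    rw [← SimpleGraph.card_neighborFinset_eq_degree]
    congr 1
    ext w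
    simp [mem_nb]
  have hsum : ∑ v, G.degree v = 5 * (dset G 2).card := by
    have h1 : ∀ v, G.degree v = 2 + if v ∈ dset G 3 then 1 else 0 := by
      intro v
      rw [hdeg]
      rcases D23_cases h v with hv | hv
      · have : v ∉ dset G 3 := by rw [mem_dset]; omega
        rw [if_neg this, hv]
      · have : v ∈ dset G 3 := by rw [mem_dset]; omega
        rw [if_pos this, hv]
    simp only [h1, Finset.sum_add_distrib, Finset.sum_const, Finset.card_univ, smul_eq_mul,
      Finset.sum_ite_mem, Finset.univ_inter]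
    omega
  rw [hsum] at hs
  omega

theorem exists_deg3 (h : IsD23 G) (hV : 0 < Fintype.card V) : ∃ v, (nb G v).card = 3 := by
  obtain ⟨_, h3⟩ := D23_cards h
  have : (dset G 3).Nonempty := by
    rw [← Finset.card_pos]
    omega
  obtain ⟨v, hv⟩ := this
  exact ⟨v, mem_dset.1 hv⟩

/-- double counting of the adjacent pairs (degree 3, degree 2) -/
theorem double_count (G : SimpleGraph V) [DecidableEq V] :
    ∑ v ∈ dset G 3, (nb G v ∩ dset G 2).card = ∑ w ∈ dset G 2, (nb G w ∩ dset G 3).card := by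
  classical
  have h1 : ∀ v, (nb G v ∩ dset G 2).card = ∑ w ∈ dset G 2, if G.Adj v w then 1 else 0 := by
    intro v
    rw [← Finset.card_filter]
    congr 1
    ext w
    simp [mem_nb, and_comm]
  have h2 : ∀ w, (nb G w ∩ dset G 3).card = ∑ v ∈ dset G 3, if G.Adj v w then 1 else 0 := by
    intro w
    rw [← Finset.card_filter]
    congr 1
    ext v
    simp [mem_nb, and_comm, G.adj_comm]
  simp only [h1, h2]
  exact Finset.sum_comm

theorem nb_split (h : IsD23 G) [DecidableEq V] (v : V) :
    (nb G v ∩ dset G 2).card + (nb G v ∩ dset G 3).card = (nb G v).card := by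
  rw [← Finset.card_union_of_disjoint]
  · congr 1
    rw [← Finset.inter_union_distrib_left]
    apply Finset.inter_eq_left.2
    intro w _
    rw [Finset.mem_union, mem_dset, mem_dset]
    exact D23_cases h w
  · rw [Finset.disjoint_left]
    intro w hw hw'
    rw [Finset.mem_inter, mem_dset] at hw hw'
    omega

/-- girth at least 4: at least 5 vertices -/
theorem card_of_four (h : IsD23 G) (hV : 0 < Fintype.card V) (hg : 4 ≤ G.egirth) :
    8 ≤ Fintype.card V := by
  classical
  obtain ⟨v, hv⟩ := exists_deg3 h hV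
  obtain ⟨w, hw⟩ : (nb G v).Nonempty := by rw [← Finset.card_pos]; omega
  have hd : Disjoint (nb G v) (nb G w) := by
    rw [Finset.disjoint_left]
    intro x hx hx'
    rw [mem_nb] at hx hx' hw
    exact no3 hg hw hx' hx.symm
  have h1 := Finset.card_le_univ (nb G v ∪ nb G w)
  rw [Finset.card_union_of_disjoint hd] at h1
  have h2 := D23_cases h w
  have h4 := D23_four_dvd h
  omega

/-- there are two adjacent vertices of degree 3 -/
theorem exists_adj33 (h : IsD23 G) (hV : 0 < Fintype.card V) :
    ∃ u v, G.Adj u v ∧ (nb G u).card = 3 ∧ (nb G v).card = 3 := by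
  classical
  by_contra hcon
  push Not at hcon
  obtain ⟨h2, h3⟩ := D23_cards h
  have hdc := double_count G
  have hl : ∀ v ∈ dset G 3, (nb G v ∩ dset G 2).card = 3 := by
    intro v hv
    rw [mem_dset] at hv
    have : (nb G v ∩ dset G 3) = ∅ := by
      rw [Finset.eq_empty_iff_forall_notMem]
      intro w hw
      rw [Finset.mem_inter, mem_nb, mem_dset] at hw
      exact hcon v w hw.1 hv hw.2
    have h4 := nb_split h v
    rw [this, Finset.card_empty] at h4
    omega
  have hr : ∀ w ∈ dset G 2, (nb G w ∩ dset G 3).card ≤ 2 := by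
    intro w hw
    rw [mem_dset] at hw
    have h4 := nb_split h w
    omega
  rw [Finset.sum_congr rfl hl] at hdc
  have := Finset.sum_le_sum hr
  simp only [Finset.sum_const, smul_eq_mul] at hdc this
  omega

theorem card_biUnion_erase [DecidableEq V] (hg : 5 ≤ G.egirth) (u : V) (A : Finset V)
    (hA : A ⊆ nb G u) :
    (A.biUnion fun w => (nb G w).erase u).card = ∑ w ∈ A, ((nb G w).card - 1) := by
  rw [Finset.card_biUnion]
  · apply Finset.sum_congr rfl
    intro w hw
    rw [Finset.card_erase_of_mem]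
    rw [mem_nb]
    exact (mem_nb.1 (hA hw)).symm
  · intro w hw w' hw' hne
    rw [Function.onFun, Finset.disjoint_left]
    intro x hx hx'
    rw [Finset.mem_erase, mem_nb] at hx hx'
    exact no4 hg (mem_nb.1 (hA hw)) hx.2 hx'.2.symm (mem_nb.1 (hA hw')).symm (Ne.symm hx.1) hne

/-- girth at least 6: at least 12 vertices -/
theorem card_of_six (h : IsD23 G) (hV : 0 < Fintype.card V) (hg : 6 ≤ G.egirth) :
    12 ≤ Fintype.card V := by
  classical
  have hg4 : 4 ≤ G.egirth := le_trans (by norm_num) hg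
  have hg5 : 5 ≤ G.egirth := le_trans (by norm_num) hg
  obtain ⟨u, v, huv, hu, hv⟩ := exists_adj33 h hV
  let A := (nb G u).erase v
  let B := (nb G v).erase u
  have hAu : A ⊆ nb G u := Finset.erase_subset _ _
  have hBv : B ⊆ nb G v := Finset.erase_subset _ _
  let A2 := A.biUnion fun w => (nb G w).erase u
  let B2 := B.biUnion fun w => (nb G w).erase v
  have hAc : A.card = 2 := by
    rw [Finset.card_erase_of_mem (mem_nb.2 huv)]; omega
  have hBc : B.card = 2 := by
    rw [Finset.card_erase_of_mem (mem_nb.2 huv.symm)]; omega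
  have hA2c : 2 ≤ A2.card := by
    rw [card_biUnion_erase hg5 u A hAu]
    calc 2 = ∑ _w ∈ A, 1 := by simp [hAc]
      _ ≤ ∑ w ∈ A, ((nb G w).card - 1) := by
        apply Finset.sum_le_sum
        intro w _
        have := D23_cases h w
        omega
  have hB2c : 2 ≤ B2.card := by
    rw [card_biUnion_erase hg5 v B hBv]
    calc 2 = ∑ _w ∈ B, 1 := by simp [hBc]
      _ ≤ ∑ w ∈ B, ((nb G w).card - 1) := by
        apply Finset.sum_le_sum
        intro w _
        have := D23_cases h w
        omega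
  have mA : ∀ x, x ∈ A ↔ x ≠ v ∧ G.Adj u x := by
    intro x; simp only [A, Finset.mem_erase, mem_nb]
  have mB : ∀ x, x ∈ B ↔ x ≠ u ∧ G.Adj v x := by
    intro x; simp only [B, Finset.mem_erase, mem_nb]
  have mA2 : ∀ x, x ∈ A2 ↔ ∃ w, (w ≠ v ∧ G.Adj u w) ∧ x ≠ u ∧ G.Adj w x := by
    intro x; simp only [A2, Finset.mem_biUnion, mA, Finset.mem_erase, mem_nb]
  have mB2 : ∀ x, x ∈ B2 ↔ ∃ w, (w ≠ u ∧ G.Adj v w) ∧ x ≠ v ∧ G.Adj w x := by
    intro x; simp only [B2, Finset.mem_biUnion, mB, Finset.mem_erase, mem_nb]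
  have d1 : Disjoint A B := by
    rw [Finset.disjoint_left]
    intro x hx hx'
    rw [mA] at hx; rw [mB] at hx'
    exact no3 hg4 huv hx'.2 hx.2.symm
  have d2 : Disjoint A A2 := by
    rw [Finset.disjoint_left]
    intro x hx hx'
    rw [mA] at hx; rw [mA2] at hx'
    obtain ⟨w, hw, hx'⟩ := hx'
    exact no3 hg4 hw.2 hx'.2 hx.2.symm
  have d3 : Disjoint A B2 := by
    rw [Finset.disjoint_left]
    intro x hx hx'
    rw [mA] at hx; rw [mB2] at hx'
    obtain ⟨w, hw, hx'⟩ := hx'
    exact no4 hg5 huv hw.2 hx'.2 hx.2.symm hw.1.symm hx.1.symm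
  have d4 : Disjoint B A2 := by
    rw [Finset.disjoint_left]
    intro x hx hx'
    rw [mB] at hx; rw [mA2] at hx'
    obtain ⟨w, hw, hx'⟩ := hx'
    exact no4 hg5 huv.symm hw.2 hx'.2 hx.2.symm hw.1.symm hx.1.symm
  have d5 : Disjoint B B2 := by
    rw [Finset.disjoint_left]
    intro x hx hx'
    rw [mB] at hx; rw [mB2] at hx'
    obtain ⟨w, hw, hx'⟩ := hx'
    exact no3 hg4 hw.2 hx'.2 hx.2.symm
  have d6 : Disjoint A2 B2 := by
    rw [Finset.disjoint_left]
    intro x hx hx'
    rw [mA2] at hx; rw [mB2] at hx'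
    obtain ⟨w, hw, hx⟩ := hx
    obtain ⟨w', hw', hx'⟩ := hx'
    exact no5 hg hw.2 hx.2 hx'.2.symm hw'.2.symm huv.symm
  have uA : u ∉ A := by rw [mA]; exact fun h => h.2.ne rfl
  have uB : u ∉ B := by rw [mB]; exact fun h => h.1 rfl
  have uA2 : u ∉ A2 := by rw [mA2]; rintro ⟨w, hw, h⟩; exact h.1 rfl
  have uB2 : u ∉ B2 := by rw [mB2]; rintro ⟨w, hw, h⟩; exact no3 hg4 huv hw.2 h.2
  have vA : v ∉ A := by rw [mA]; exact fun h => h.1 rfl
  have vB : v ∉ B := by rw [mB]; exact fun h => h.2.ne rfl
  have vA2 : v ∉ A2 := by rw [mA2]; rintro ⟨w, hw, h⟩; exact no3 hg4 huv.symm hw.2 h.2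
  have vB2 : v ∉ B2 := by rw [mB2]; rintro ⟨w, hw, h⟩; exact h.1 rfl
  have hcard : (insert u (insert v (A ∪ (B ∪ (A2 ∪ B2))))).card = 2 + A.card + B.card + A2.card +
      B2.card := by
    rw [Finset.card_insert_of_notMem, Finset.card_insert_of_notMem, Finset.card_union_of_disjoint,
      Finset.card_union_of_disjoint, Finset.card_union_of_disjoint d6]
    · omega
    · rw [Finset.disjoint_union_right]; exact ⟨d4, d5⟩
    · rw [Finset.disjoint_union_right, Finset.disjoint_union_right]; exact ⟨d1, d2, d3⟩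
    · simp only [Finset.mem_union]; tauto
    · simp only [Finset.mem_insert, Finset.mem_union]
      have := huv.ne
      tauto
  have h1 := Finset.card_le_univ (insert u (insert v (A ∪ (B ∪ (A2 ∪ B2)))))
  have h4 := D23_four_dvd h
  omega

/-- the ball of radius 3 in girth at least 7 -/
theorem ball_three [DecidableEq V] (hg : 7 ≤ G.egirth) (v : V) :
    1 + (nb G v).card + ((nb G v).biUnion fun w => (nb G w).erase v).card +
      ∑ x ∈ (nb G v).biUnion fun w => (nb G w).erase v, ((nb G x).card - 1) ≤ Fintype.card V := by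
  have hg4 : 4 ≤ G.egirth := le_trans (by norm_num) hg
  have hg5 : 5 ≤ G.egirth := le_trans (by norm_num) hg
  have hg6 : 6 ≤ G.egirth := le_trans (by norm_num) hg
  set S2 := (nb G v).biUnion fun w => (nb G w).erase v with hS2
  have mS2 : ∀ x, x ∈ S2 ↔ ∃ w, G.Adj v w ∧ x ≠ v ∧ G.Adj w x := by
    intro x; simp only [hS2, Finset.mem_biUnion, Finset.mem_erase, mem_nb]
  let S3 := S2.biUnion fun x => nb G x \ nb G v
  have mS3 : ∀ y, y ∈ S3 ↔ ∃ x, (∃ w, G.Adj v w ∧ x ≠ v ∧ G.Adj w x) ∧ G.Adj x y ∧
      ¬ G.Adj v y := by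
    intro x; simp only [S3, Finset.mem_biUnion, mS2, Finset.mem_sdiff, mem_nb]
  have hS3 : S3.card = ∑ x ∈ S2, ((nb G x).card - 1) := by
    rw [Finset.card_biUnion]
    · apply Finset.sum_congr rfl
      intro x hx
      obtain ⟨w, hw, hxv, hwx⟩ := (mS2 x).1 hx
      have : nb G x \ nb G v = (nb G x).erase w := by
        ext y
        simp only [Finset.mem_sdiff, Finset.mem_erase, mem_nb]
        constructor
        · rintro ⟨h1, h2⟩
          exact ⟨fun h => h2 (h ▸ hw), h1⟩
        · rintro ⟨h1, h2⟩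
          refine ⟨h2, fun h3 => ?_⟩
          exact no4 hg5 hw hwx h2 h3.symm hxv.symm (Ne.symm h1)
      rw [this, Finset.card_erase_of_mem (mem_nb.2 hwx.symm)]
    · intro x hx x' hx' hne
      rw [Function.onFun, Finset.disjoint_left]
      intro y hy hy'
      rw [Finset.mem_sdiff, mem_nb, mem_nb] at hy hy'
      obtain ⟨w, hw, hxv, hwx⟩ := (mS2 x).1 hx
      obtain ⟨w', hw', hxv', hwx'⟩ := (mS2 x').1 hx'
      by_cases hww : w = w'
      · subst hww
        exact no4 hg5 hwx hy.1 hy'.1.symm hwx'.symm (fun h => hy.2 (h ▸ hw)) hne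
      · exact no6 hg hw hwx hy.1 hy'.1.symm hwx'.symm hw'.symm hxv.symm
          (fun h => hy.2 (h ▸ hw)) hne (fun h => hy'.2 (h ▸ hw')) hxv' (Ne.symm hww)
  have d1 : Disjoint (nb G v) S2 := by
    rw [Finset.disjoint_left]
    intro x hx hx'
    rw [mem_nb] at hx
    obtain ⟨w, hw, hxv, hwx⟩ := (mS2 x).1 hx'
    exact no3 hg4 hw hwx hx.symm
  have d2 : Disjoint (nb G v) S3 := by
    rw [Finset.disjoint_left]
    intro y hy hy'
    rw [mem_nb] at hy
    obtain ⟨x, _, _, h⟩ := (mS3 y).1 hy'
    exact h hy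
  have d3 : Disjoint S2 S3 := by
    rw [Finset.disjoint_left]
    intro y hy hy'
    obtain ⟨w', hw', hyv, hwy⟩ := (mS2 y).1 hy
    obtain ⟨x, ⟨w, hw, hxv, hwx⟩, hxy, _⟩ := (mS3 y).1 hy'
    exact no5 hg6 hw hwx hxy hwy.symm hw'.symm
  have v1 : v ∉ nb G v := by rw [mem_nb]; exact fun h => h.ne rfl
  have v2 : v ∉ S2 := by rw [mS2]; rintro ⟨w, _, h, _⟩; exact h rfl
  have v3 : v ∉ S3 := by
    rw [mS3]
    rintro ⟨x, ⟨w, hw, hxv, hwx⟩, hxy, _⟩
    exact no3 hg4 hw hwx hxy
  have hcard : (insert v (nb G v ∪ (S2 ∪ S3))).card = 1 + (nb G v).card + S2.card + S3.card := by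
    rw [Finset.card_insert_of_notMem, Finset.card_union_of_disjoint,
      Finset.card_union_of_disjoint d3]
    · omega
    · rw [Finset.disjoint_union_right]; exact ⟨d1, d2⟩
    · simp only [Finset.mem_union]; tauto
  have h1 := Finset.card_le_univ (insert v (nb G v ∪ (S2 ∪ S3)))
  rw [hcard, hS3] at h1
  exact h1

/-- girth at least 7: at least 16 vertices -/
theorem card_of_seven (h : IsD23 G) (hV : 0 < Fintype.card V) (hg : 7 ≤ G.egirth) :
    16 ≤ Fintype.card V := by
  classical
  by_contra hlt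
  push Not at hlt
  have hg5 : 5 ≤ G.egirth := le_trans (by norm_num) hg
  have h4 := D23_four_dvd h
  have h12 : Fintype.card V ≤ 12 := by omega
  obtain ⟨h2, h3⟩ := D23_cards h
  -- local structure at vertices of degree 3
  have key : ∀ v, (nb G v).card = 3 → (nb G v ∩ dset G 3).card ≤ 1 ∧
      ((nb G v ∩ dset G 3).card = 1 →
        ∀ w, G.Adj v w → ∀ x, G.Adj w x → x ≠ v → (nb G x).card = 2) := by
    intro v hv
    have hb := ball_three hg v
    set S2 := (nb G v).biUnion fun w => (nb G w).erase v with hS2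
    have hS2c : S2.card = 3 + (nb G v ∩ dset G 3).card := by
      rw [hS2, card_biUnion_erase hg5 v _ (Finset.Subset.refl _)]
      have h5 : ∀ w ∈ nb G v, (nb G w).card - 1 = 1 + if w ∈ dset G 3 then 1 else 0 := by
        intro w _
        rcases D23_cases h w with hw | hw
        · have : w ∉ dset G 3 := by rw [mem_dset]; omega
          rw [if_neg this, hw]
        · have : w ∈ dset G 3 := by rw [mem_dset]; omega
          rw [if_pos this, hw]
      rw [Finset.sum_congr rfl h5, Finset.sum_add_distrib, Finset.sum_ite_mem]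
      simp [hv]
    have h6 : S2.card + (S2 ∩ dset G 3).card = ∑ x ∈ S2, ((nb G x).card - 1) := by
      have h5 : ∀ w ∈ S2, (nb G w).card - 1 = 1 + if w ∈ dset G 3 then 1 else 0 := by
        intro w _
        rcases D23_cases h w with hw | hw
        · have : w ∉ dset G 3 := by rw [mem_dset]; omega
          rw [if_neg this, hw]
        · have : w ∈ dset G 3 := by rw [mem_dset]; omega
          rw [if_pos this, hw]
      rw [Finset.sum_congr rfl h5, Finset.sum_add_distrib, Finset.sum_ite_mem]
      simp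
    refine ⟨by omega, fun h1 w hw x hx hxv => ?_⟩
    have h7 : (S2 ∩ dset G 3).card = 0 := by omega
    have h8 : x ∉ dset G 3 := by
      intro h9
      have : x ∈ S2 ∩ dset G 3 := by
        rw [Finset.mem_inter]
        refine ⟨?_, h9⟩
        rw [hS2, Finset.mem_biUnion]
        exact ⟨w, mem_nb.2 hw, Finset.mem_erase.2 ⟨hxv, mem_nb.2 hx⟩⟩
      rw [Finset.card_eq_zero] at h7
      rw [h7] at this
      exact absurd this (Finset.notMem_empty _)
    rw [mem_dset] at h8
    rcases D23_cases h x with h10 | h10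
    · exact h10
    · exact absurd h10 h8
  -- counting
  have hdc := double_count G
  have hl : ∀ v ∈ dset G 3, 2 ≤ (nb G v ∩ dset G 2).card := by
    intro v hv
    rw [mem_dset] at hv
    have h5 := nb_split h v
    have h6 := (key v hv).1
    omega
  have hr : ∀ w ∈ dset G 2, (nb G w ∩ dset G 3).card ≤ 2 := by
    intro w hw
    rw [mem_dset] at hw
    have h5 := nb_split h w
    omega
  have hL : ∑ v ∈ dset G 3, 2 ≤ ∑ v ∈ dset G 3, (nb G v ∩ dset G 2).card :=
    Finset.sum_le_sum hl
  have hR : ∑ w ∈ dset G 2, (nb G w ∩ dset G 3).card ≤ ∑ w ∈ dset G 2, 2 :=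
    Finset.sum_le_sum hr
  have hcc : ∑ v ∈ dset G 3, 2 = ∑ w ∈ dset G 2, 2 := by
    simp only [Finset.sum_const, smul_eq_mul]
    omega
  have hLeq : ∑ v ∈ dset G 3, 2 = ∑ v ∈ dset G 3, (nb G v ∩ dset G 2).card := by omega
  have hReq : ∑ w ∈ dset G 2, (nb G w ∩ dset G 3).card = ∑ w ∈ dset G 2, 2 := by omega
  have hl' := (Finset.sum_eq_sum_iff_of_le hl).1 hLeq
  have hr' := (Finset.sum_eq_sum_iff_of_le hr).1 hReq
  obtain ⟨v, hv⟩ := exists_deg3 h hV
  have h5 := hl' v (mem_dset.2 hv)
  have h6 := nb_split h v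
  obtain ⟨w, hw⟩ : (nb G v ∩ dset G 2).Nonempty := by
    rw [← Finset.card_pos]; omega
  rw [Finset.mem_inter] at hw
  have h7 := hr' w hw.2
  have hvw : v ∈ nb G w ∩ dset G 3 := by
    rw [Finset.mem_inter, mem_nb, mem_dset]
    exact ⟨(mem_nb.1 hw.1).symm, hv⟩
  obtain ⟨x, hx⟩ : ((nb G w ∩ dset G 3).erase v).Nonempty := by
    rw [← Finset.card_pos, Finset.card_erase_of_mem hvw]; omega
  rw [Finset.mem_erase, Finset.mem_inter, mem_nb, mem_dset] at hx
  have h8 := (key v hv).2 (by omega) w (mem_nb.1 hw.1) x hx.2.1 hx.1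
  omega

end counting

/-! ## The examples -/

/-- the graph on `Fin n` with the listed edges -/
def ofList {n : ℕ} (L : List (Fin n × Fin n)) : SimpleGraph (Fin n) :=
  SimpleGraph.fromRel fun a b => (a, b) ∈ L

instance {n : ℕ} (L : List (Fin n × Fin n)) : DecidableRel (ofList L).Adj := by
  unfold ofList
  infer_instance

theorem deg_eq_degree {n : ℕ} (G : SimpleGraph (Fin n)) [DecidableRel G.Adj] (v : Fin n) :
    deg G v = G.degree v := by
  unfold deg
  rw [← SimpleGraph.card_neighborSet_eq_degree, Set.ncard_eq_toFinset_card', Set.toFinset_card]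

theorem isD23_of {n : ℕ} (G : SimpleGraph (Fin n)) [DecidableRel G.Adj]
    (h2 : 2 * (Finset.univ.filter fun v => G.degree v = 2).card = n)
    (h3 : 2 * (Finset.univ.filter fun v => G.degree v = 3).card = n) : IsD23 G := by
  have key : ∀ i, {v | deg G v = i}.ncard = (Finset.univ.filter fun v => G.degree v = i).card := by
    intro i
    rw [← Set.ncard_coe_finset]
    congr 1
    ext v
    simp [deg_eq_degree]
  refine ⟨?_, ?_⟩
  · rw [key, Fintype.card_fin]; exact h2
  · rw [key, Fintype.card_fin]; exact h3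

def L4 : List (Fin 8 × Fin 8) :=
  [(0, 1), (0, 2), (0, 3), (1, 4), (4, 2), (1, 5), (5, 3), (2, 6), (6, 7), (7, 3)]

def L6 : List (Fin 12 × Fin 12) :=
  [(0, 1), (0, 2), (0, 6), (6, 3), (1, 4), (1, 7), (7, 5), (2, 8), (8, 9), (9, 4), (2, 10),
    (10, 5), (3, 11), (11, 4), (3, 5)]

def L7 : List (Fin 16 × Fin 16) :=
  [(0, 1), (0, 2), (0, 3), (1, 8), (8, 4), (1, 9), (9, 5), (2, 10), (10, 11), (11, 4), (2, 12),
    (12, 6), (3, 13), (13, 14), (14, 5), (3, 15), (15, 7), (4, 7), (5, 6), (6, 7)]

set_option maxRecDepth 100000 in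
theorem d4 : IsD23 (ofList L4) := isD23_of _ (by decide +kernel) (by decide +kernel)
set_option maxRecDepth 100000 in
theorem d6 : IsD23 (ofList L6) := isD23_of _ (by decide +kernel) (by decide +kernel)
set_option maxRecDepth 100000 in
theorem d7 : IsD23 (ofList L7) := isD23_of _ (by decide +kernel) (by decide +kernel)

/-- vertices adjacent to `a` as a list -/
def nbl {n : ℕ} (L : List (Fin n × Fin n)) (a : Fin n) : List (Fin n) :=
  (List.finRange n).filter fun b => decide ((ofList L).Adj a b)

theorem mem_nbl {n : ℕ} (L : List (Fin n × Fin n)) (a b : Fin n) :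
    b ∈ nbl L a ↔ (ofList L).Adj a b := by
  simp [nbl]

/-- no closed non-backtracking walk of length between 3 and k+2 starting with `a, b`,
  currently at `c` coming from `b` -/
def noRet {n : ℕ} (N : Fin n → List (Fin n)) (a : Fin n) : ℕ → Fin n → Fin n → Bool
  | 0, _, _ => true
  | k + 1, b, c => (N c).all fun d => d == b || (d != a && noRet N a k c d)

theorem noRet_spec {n : ℕ} {L : List (Fin n × Fin n)} {N : Fin n → List (Fin n)}
    (hN : ∀ a b, (ofList L).Adj a b → b ∈ N a) (a : Fin n) :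
    ∀ (k : ℕ) (b c : Fin n) (_ : noRet N a k b c = true) (w : (ofList L).Walk c a),
      w.length ≤ k → w.IsPath → b ∉ w.support → w.length ≠ 0 → False := by
  intro k
  induction k with
  | zero =>
    intro b c _ w hw _ _ h0
    omega
  | succ k ih =>
    intro b c hr w hw hp hb h0
    cases w with
    | nil => simp at h0
    | @cons _ d _ had w' =>
      rw [noRet, List.all_eq_true] at hr
      have hd := hr d (hN c d had)
      rw [Walk.cons_isPath_iff] at hp
      have hbd : d ≠ b := by
        rintro rfl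
        apply hb
        simp
      simp only [beq_iff_eq, Bool.or_eq_true, hbd, false_or, Bool.and_eq_true, bne_iff_ne] at hd
      have hlen : w'.length ≤ k := by simpa using hw
      apply ih c d hd.2 w' hlen hp.1 hp.2
      intro h
      have := Walk.eq_of_length_eq_zero h
      exact hd.1 this

/-- no short cycles -/
theorem egirth_ge {n : ℕ} {L : List (Fin n × Fin n)} {N : Fin n → List (Fin n)}
    (hN : ∀ a b, (ofList L).Adj a b → b ∈ N a) (k : ℕ)
    (h : ∀ a, ∀ b ∈ N a, noRet N a (k + 1) a b = true) :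
    ((k + 3 : ℕ) : ℕ∞) ≤ (ofList L).egirth := by
  rw [le_egirth]
  intro a w hw
  by_contra hlt
  push Not at hlt
  have hlt' : w.length < k + 3 := by exact_mod_cast hlt
  cases w with
  | nil => exact hw.ne_nil rfl
  | @cons _ b _ hab w' =>
    have h3 := hw.three_le_length
    rw [Walk.cons_isCycle_iff] at hw
    rw [Walk.length_cons] at hlt' h3
    have hr := h a b (hN a b hab)
    obtain ⟨hp, -⟩ := hw
    cases w' with
    | nil => simp at h3
    | @cons _ d _ hbd w'' =>
      rw [Walk.length_cons] at hlt' h3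
      rw [Walk.cons_isPath_iff] at hp
      have hda : d ≠ a := by
        rintro rfl
        have := Walk.length_eq_zero_iff.2 (Walk.isPath_iff_nil.1 hp.1)
        omega
      rw [noRet, List.all_eq_true] at hr
      have hd := hr d (hN b d hbd)
      simp only [beq_iff_eq, Bool.or_eq_true, hda, false_or, Bool.and_eq_true, bne_iff_ne] at hd
      exact noRet_spec hN a k b d hd.2 w'' (by omega) hp.1 hp.2 (by omega)

set_option maxRecDepth 100000 in
theorem g4 : ((4 : ℕ) : ℕ∞) ≤ (ofList L4).egirth :=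
  egirth_ge (N := nbl L4) (fun a b h => (mem_nbl L4 a b).2 h) 1 (by decide +kernel)

set_option maxRecDepth 100000 in
theorem g6 : ((6 : ℕ) : ℕ∞) ≤ (ofList L6).egirth :=
  egirth_ge (N := nbl L6) (fun a b h => (mem_nbl L6 a b).2 h) 3 (by decide +kernel)

set_option maxRecDepth 100000 in
theorem g7 : ((7 : ℕ) : ℕ∞) ≤ (ofList L7).egirth :=
  egirth_ge (N := nbl L7) (fun a b h => (mem_nbl L7 a b).2 h) 4 (by decide +kernel)

theorem c4 : (ofList L4).egirth ≤ 4 := by
  have h1 : (ofList L4).Adj 0 1 := by decide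
  have h2 : (ofList L4).Adj 1 4 := by decide
  have h3 : (ofList L4).Adj 4 2 := by decide
  have h4 : (ofList L4).Adj 2 0 := by decide
  have hc : (Walk.cons h1 (Walk.cons h2 (Walk.cons h3 (Walk.cons h4 Walk.nil)))).IsCycle := by
    rw [Walk.isCycle_def]
    refine ⟨?_, by simp, ?_⟩
    · rw [Walk.isTrail_def]
      simp
    · simp
  exact_mod_cast egirth_le_length hc

theorem c6 : (ofList L6).egirth ≤ 6 := by
  have h1 : (ofList L6).Adj 0 1 := by decide
  have h2 : (ofList L6).Adj 1 4 := by decide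
  have h3 : (ofList L6).Adj 4 11 := by decide
  have h4 : (ofList L6).Adj 11 3 := by decide
  have h5 : (ofList L6).Adj 3 6 := by decide
  have h6 : (ofList L6).Adj 6 0 := by decide
  have hc : (Walk.cons h1 (Walk.cons h2 (Walk.cons h3 (Walk.cons h4
      (Walk.cons h5 (Walk.cons h6 Walk.nil)))))).IsCycle := by
    rw [Walk.isCycle_def]
    refine ⟨?_, by simp, ?_⟩
    · rw [Walk.isTrail_def]
      simp
    · simp
  exact_mod_cast egirth_le_length hc

theorem c7 : (ofList L7).egirth ≤ 7 := by
  have h1 : (ofList L7).Adj 0 1 := by decide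
  have h2 : (ofList L7).Adj 1 8 := by decide
  have h3 : (ofList L7).Adj 8 4 := by decide
  have h4 : (ofList L7).Adj 4 7 := by decide
  have h5 : (ofList L7).Adj 7 15 := by decide
  have h6 : (ofList L7).Adj 15 3 := by decide
  have h7 : (ofList L7).Adj 3 0 := by decide
  have hc : (Walk.cons h1 (Walk.cons h2 (Walk.cons h3 (Walk.cons h4
      (Walk.cons h5 (Walk.cons h6 (Walk.cons h7 Walk.nil))))))).IsCycle := by
    rw [Walk.isCycle_def]
    refine ⟨?_, by simp, ?_⟩
    · rw [Walk.isTrail_def]
      simp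
    · simp
  exact_mod_cast egirth_le_length hc

theorem girth_eq_of {n : ℕ} {G : SimpleGraph (Fin n)} {g : ℕ} (h1 : ((g : ℕ) : ℕ∞) ≤ G.egirth)
    (h2 : G.egirth ≤ ((g : ℕ) : ℕ∞)) : G.girth = g := by
  unfold SimpleGraph.girth
  rw [le_antisymm h2 h1]
  rfl

/-- girth `g ≥ 3` means extended girth `g` -/
theorem egirth_of_girth {V : Type*} {G : SimpleGraph V} {g : ℕ} (h : G.girth = g) (hg : g ≠ 0) :
    ((g : ℕ) : ℕ∞) ≤ G.egirth ∧ Nonempty V := by
  have hac : ¬ G.IsAcyclic := by
    intro hac
    rw [← girth_eq_zero] at hac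
    exact hg (h ▸ hac)
  obtain ⟨a, w, _, hl⟩ := exists_egirth_eq_length.2 hac
  refine ⟨?_, ⟨a⟩⟩
  rw [← h, SimpleGraph.girth, hl]
  exact le_rfl

/-- **Main theorem.** For each `(g, n) ∈ {(4, 8), (6, 12), (7, 16)}` there is a graph on `n` vertices that is extremal for `g` (smallest
among the graphs of girth `g` in which exactly half of the vertices have degree 2 and the other
half degree 3) and contains an edge both of whose endpoints have degree 2. -/
theorem result : ∀ p ∈ ({(4, 8), (6, 12), (7, 16)} : Set (ℕ × ℕ)), ∃ G : SimpleGraph (Fin p.2),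
    IsExtremal p.1 G ∧ ∃ u v, G.Adj u v ∧ deg G u = 2 ∧ deg G v = 2 := by
  intro p hp
  have hcard : ∀ (m : ℕ) (H : SimpleGraph (Fin m)), Nonempty (Fin m) → 0 < Fintype.card (Fin m) :=
    fun m H h => Fintype.card_pos
  rcases hp with rfl | rfl | hp
  · refine ⟨ofList L4, ⟨d4, girth_eq_of g4 c4, ?_⟩, 6, 7, by decide, ?_, ?_⟩
    · intro m H hH hgH
      obtain ⟨h1, h2⟩ := egirth_of_girth hgH (by norm_num)
      have := card_of_four hH (hcard m H h2) h1
      rwa [Fintype.card_fin] at this
    · rw [deg_eq_degree]; decide +kernel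
    · rw [deg_eq_degree]; decide +kernel
  · refine ⟨ofList L6, ⟨d6, girth_eq_of g6 c6, ?_⟩, 8, 9, by decide, ?_, ?_⟩
    · intro m H hH hgH
      obtain ⟨h1, h2⟩ := egirth_of_girth hgH (by norm_num)
      have := card_of_six hH (hcard m H h2) h1
      rwa [Fintype.card_fin] at this
    · rw [deg_eq_degree]; decide +kernel
    · rw [deg_eq_degree]; decide +kernel
  · rw [Set.mem_singleton_iff] at hp
    subst hp
    refine ⟨ofList L7, ⟨d7, girth_eq_of g7 c7, ?_⟩, 10, 11, by decide, ?_, ?_⟩
    · intro m H hH hgH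
      obtain ⟨h1, h2⟩ := egirth_of_girth hgH (by norm_num)
      have := card_of_seven hH (hcard m H h2) h1
      rwa [Fintype.card_fin] at this
    · rw [deg_eq_degree]; decide +kernel
    · rw [deg_eq_degree]; decide +kernel

end Pool.Agent.Results.MP_6c91b3_co.AdjacentTwos
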